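import Mathlib

set_option autoImplicit false
set_option linter.unusedSectionVars false

namespace Pool.Agent.H.MP_395ab6_co
open MvPolynomial Finset Equiv

section Fock
variable {σ : Type} [Fintype σ] [DecidableEq σ]

noncomputable def fw (m : σ →₀ ℕ) : ℕ := ∏ c, (m c).factorial

noncomputable def Bf : MvPolynomial σ ℂ →ₗ[ℂ] MvPolynomial σ ℂ →ₗ[ℂ] ℂ :=
  (basisMonomials σ ℂ).constr ℂ (fun m => (fw m : ℂ) • lcoeff ℂ m)

lemma Bf_mono (m : σ →₀ ℕ) (a : ℂ) (q : MvPolynomial σ ℂ) :
    Bf (monomial m a) q = a * (fw m * coeff m q) := by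
  have h : (monomial m a : MvPolynomial σ ℂ) = a • basisMonomials σ ℂ m := by
    rw [coe_basisMonomials]; simp [smul_monomial]
  rw [h, map_smul, Bf, Module.Basis.constr_basis]
  simp

lemma Bf_symm (p q : MvPolynomial σ ℂ) : Bf p q = Bf q p := by
  induction p using MvPolynomial.induction_on' with
  | add p p' hp hp' => simp [hp, hp']
  | monomial m a =>
    induction q using MvPolynomial.induction_on' with
    | add p p' hp hp' => simp [hp, hp']
    | monomial m' a' =>
      rw [Bf_mono, Bf_mono, coeff_monomial, coeff_monomial]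
      by_cases h : m = m'
      · subst h; simp; ring
      · rw [if_neg h, if_neg (Ne.symm h)]; simp

lemma fw_add (m : σ →₀ ℕ) (c : σ) : fw (m + Finsupp.single c 1) = fw m * (m c + 1) := by
  unfold fw
  rw [← Finset.mul_prod_erase _ _ (mem_univ c), ← Finset.mul_prod_erase _ _ (mem_univ c)]
  have : ∏ x ∈ univ.erase c, ((m + Finsupp.single c 1 : σ →₀ ℕ) x).factorial =
      ∏ x ∈ univ.erase c, (m x).factorial := by
    refine prod_congr rfl fun x hx => ?_
    have hx' : x ≠ c := ne_of_mem_erase hx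
    simp [Finsupp.single_eq_of_ne hx']
  rw [this]
  simp [Nat.factorial_succ]; ring

lemma Bf_X (c : σ) (p q : MvPolynomial σ ℂ) : Bf (X c * p) q = Bf p (pderiv c q) := by
  induction p using MvPolynomial.induction_on' with
  | add p p' hp hp' => simp [mul_add, hp, hp']
  | monomial m a =>
    have : (X c * monomial m a : MvPolynomial σ ℂ) = monomial (m + Finsupp.single c 1) a := by
      rw [X, monomial_mul, one_mul, add_comm]
    rw [this, Bf_mono, Bf_mono, coeff_pderiv, fw_add]
    push_cast; ring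

lemma Bf_one : Bf (1 : MvPolynomial σ ℂ) 1 = 1 := by
  have : (1 : MvPolynomial σ ℂ) = monomial 0 1 := rfl
  rw [this, Bf_mono]
  simp [fw]

lemma Bf_C_left (a : ℂ) (p q : MvPolynomial σ ℂ) : Bf (C a * p) q = a * Bf p q := by
  rw [C_mul', map_smul]; simp

lemma Bf_C_right (a : ℂ) (p q : MvPolynomial σ ℂ) : Bf p (C a * q) = a * Bf p q := by
  rw [C_mul', map_smul]; simp

noncomputable def lin (v : σ → ℂ) : MvPolynomial σ ℂ := ∑ c, C (v c) * X c

lemma pderiv_lin (v : σ → ℂ) (c : σ) : pderiv c (lin v) = C (v c) := by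
  unfold lin
  rw [map_sum, Finset.sum_eq_single c]
  · rw [pderiv_C_mul, pderiv_X_self, mul_one]
  · intro b _ hb
    rw [pderiv_C_mul, pderiv_X_of_ne hb, mul_zero]
  · simp

lemma pderiv_prod {ι : Type} [DecidableEq ι] (c : σ) (s : Finset ι) (f : ι → MvPolynomial σ ℂ) :
    pderiv c (∏ i ∈ s, f i) = ∑ i ∈ s, pderiv c (f i) * ∏ j ∈ s.erase i, f j := by
  induction s using Finset.induction_on with
  | empty => simp
  | insert a s ha ih =>
    rw [prod_insert ha, pderiv_mul, ih, sum_insert ha, erase_insert ha, mul_sum]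
    congr 1
    refine sum_congr rfl fun i hi => ?_
    have hne : a ≠ i := fun h => ha (h ▸ hi)
    rw [erase_insert_of_ne hne, prod_insert (fun h => ha (mem_of_mem_erase h))]
    ring

lemma prod_erase_fin {P : Type} [CommMonoid P] {n : ℕ} (f : Fin (n + 1) → P) (p : Fin (n + 1)) :
    ∏ j ∈ univ.erase p, f j = ∏ x : Fin n, f (swap 0 p x.succ) := by
  have h1 : ∏ j ∈ univ.erase p, f j = ∏ j, Function.update f p 1 j := by
    rw [prod_update_of_mem (mem_univ p), one_mul, sdiff_singleton_eq_erase]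
  rw [h1, ← Equiv.prod_comp (swap 0 p), Fin.prod_univ_succ, swap_apply_left,
    Function.update_self, one_mul]
  refine prod_congr rfl fun x _ => ?_
  rw [Function.update_of_ne]
  intro h
  have : swap 0 p x.succ = swap 0 p 0 := by rw [h, swap_apply_left]
  exact Fin.succ_ne_zero x ((swap 0 p).injective this)

lemma perm_succ {n : ℕ} (A : Matrix (Fin (n + 1)) (Fin (n + 1)) ℂ) :
    A.permanent = ∑ p, A p 0 *
      (A.submatrix (fun x : Fin n => swap 0 p x.succ) Fin.succ).permanent := by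
  unfold Matrix.permanent
  rw [← Equiv.sum_comp (Perm.decomposeFin.symm), Fintype.sum_prod_type]
  refine sum_congr rfl fun p _ => ?_
  rw [mul_sum]
  refine sum_congr rfl fun e _ => ?_
  rw [Fin.prod_univ_succ]
  simp

theorem fock_fin : ∀ (n : ℕ) (v w : Fin n → σ → ℂ),
    (Matrix.of fun i j => ∑ c, v i c * w j c).permanent =
      Bf (∏ j, lin (w j)) (∏ i, lin (v i)) := by
  intro n
  induction n with
  | zero => intro v w; rw [Matrix.permanent_isEmpty]; simp [Bf_one]
  | succ n ih =>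
    intro v w
    rw [perm_succ, Fin.prod_univ_succ (fun j => lin (w j))]
    have h : ∀ p : Fin (n + 1), ((Matrix.of fun i j => ∑ c, v i c * w j c).submatrix
        (fun x : Fin n => swap 0 p x.succ) Fin.succ).permanent =
        Bf (∏ j : Fin n, lin (w j.succ)) (∏ i ∈ univ.erase p, lin (v i)) := by
      intro p
      rw [prod_erase_fin, ← ih (fun x => v (swap 0 p x.succ)) (fun j => w j.succ)]
      rfl
    simp only [h]
    conv_rhs => rw [lin, sum_mul, map_sum, LinearMap.sum_apply]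
    simp only [mul_assoc, Bf_C_left, Bf_X, pderiv_prod, pderiv_lin, map_sum, Bf_C_right,
      Matrix.of_apply, sum_mul, mul_sum]
    rw [sum_comm]
    refine sum_congr rfl fun c _ => sum_congr rfl fun p _ => by ring

lemma perm_reindex {ι κ : Type} [Fintype ι] [DecidableEq ι] [Fintype κ] [DecidableEq κ]
    (e : κ ≃ ι) (A : Matrix ι ι ℂ) : (A.submatrix e e).permanent = A.permanent := by
  unfold Matrix.permanent
  refine Fintype.sum_equiv (Equiv.permCongr e) _ _ fun π => ?_
  refine Fintype.prod_equiv e _ _ fun i => ?_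
  simp

theorem fock {ι : Type} [Fintype ι] [DecidableEq ι] (v w : ι → σ → ℂ) :
    (Matrix.of fun i j => ∑ c, v i c * w j c).permanent =
      Bf (∏ j, lin (w j)) (∏ i, lin (v i)) := by
  have e := (Fintype.equivFin ι).symm
  rw [← perm_reindex e, ← Equiv.prod_comp e (fun j => lin (w j)),
    ← Equiv.prod_comp e (fun j => lin (v j)), ← fock_fin]
  rfl

lemma Bf_y_zero (c : σ) (p q : MvPolynomial σ ℂ) (hq : pderiv c q = 0) : Bf (X c * p) q = 0 := by
  rw [Bf_X, hq, map_zero]

lemma Bf_yy (c : σ) (p q : MvPolynomial σ ℂ) (hq : pderiv c q = 0) :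
    Bf (X c * p) (X c * q) = Bf p q := by
  rw [Bf_X, pderiv_mul, hq, pderiv_X_self]; simp

lemma Bf_y2y2 (c : σ) (p q : MvPolynomial σ ℂ) (hq : pderiv c q = 0) :
    Bf (X c * (X c * p)) (X c * (X c * q)) = 2 * Bf p q := by
  rw [Bf_X, pderiv_mul, pderiv_mul, hq, pderiv_X_self]
  simp only [one_mul, mul_zero, add_zero, map_add]
  rw [Bf_yy c p q hq]; ring

lemma Bf_pow (c : σ) (k : ℕ) :
    Bf (X c ^ k : MvPolynomial σ ℂ) (X c ^ k) = (k.factorial : ℂ) := by
  induction k with
  | zero => simp [Bf_one]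
  | succ k ih =>
    conv_lhs => rw [pow_succ' (X c) k, Bf_X, ← pow_succ', pderiv_pow, pderiv_X_self]
    have : (((k + 1 : ℕ) : MvPolynomial σ ℂ) * X c ^ (k + 1 - 1) * 1) =
        C ((k + 1 : ℕ) : ℂ) * X c ^ k := by simp
    rw [this, Bf_C_right, ih, Nat.factorial_succ]
    push_cast; ring

end Fock

def nn (k m : ℕ) : ℕ :=
  ∑ j ∈ range (m + 1), m.choose j * (512 ^ (m - j) * (k + 2 * j).factorial)

lemma nn_zero (k : ℕ) : nn k 0 = k.factorial := by simp [nn]

lemma nn_succ (k m : ℕ) : nn k (m + 1) = 512 * nn k m + nn (k + 2) m := by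
  unfold nn
  have h := Finset.sum_choose_succ_mul (R := ℕ)
    (fun i j => 512 ^ j * (k + 2 * i).factorial) m
  simp only [Nat.cast_id] at h
  rw [h, mul_sum]
  congr 1
  · refine sum_congr rfl fun j hj => ?_
    have : m + 1 - j = m - j + 1 := by have := mem_range.mp hj; omega
    rw [this, pow_succ]; ring
  · refine sum_congr rfl fun j _ => ?_
    rw [show k + 2 * (j + 1) = k + 2 + 2 * j by ring]

lemma nn_ineq : nn 1 20 < 40 * (nn 1 19 + 16 * nn 0 19) := by
  unfold nn
  simp only [Nat.choose_eq_descFactorial_div_factorial]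
  decide +kernel

variable {M : ℕ}

noncomputable def Q (g : Fin M) : MvPolynomial (Option (Fin M)) ℂ :=
  C 16 * (X (some g) * X (some g)) - X none ^ 2

noncomputable def P (k : ℕ) (S : Finset (Fin M)) : MvPolynomial (Option (Fin M)) ℂ :=
  X none ^ k * ∏ g ∈ S, Q g

lemma pderiv_P (k : ℕ) (S : Finset (Fin M)) (g : Fin M) (hg : g ∉ S) :
    pderiv (some g) (P k S) = 0 := by
  unfold P
  rw [pderiv_mul, pderiv_pow, pderiv_X_of_ne (by simp), pderiv_prod, sum_eq_zero]
  · simp
  · intro i hi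
    have hne : i ≠ g := fun h => hg (h ▸ hi)
    have : pderiv (some g) (Q i) = 0 := by
      unfold Q
      rw [map_sub, pderiv_C_mul, pderiv_mul, pderiv_pow, pderiv_X_of_ne (by simpa using hne),
        pderiv_X_of_ne (by simp)]
      simp
    rw [this, zero_mul]

lemma Bf_P (S : Finset (Fin M)) : ∀ k, Bf (P k S) (P k S) = (nn k S.card : ℂ) := by
  induction S using Finset.induction_on with
  | empty => intro k; simp [P, Bf_pow, nn_zero]
  | insert g S hg ih =>
    intro k
    have h : P k (insert g S) = C 16 * (X (some g) * (X (some g) * P k S)) - P (k + 2) S := by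
      unfold P
      rw [prod_insert hg, Q]; ring
    have z1 : Bf (X (some g) * (X (some g) * P k S)) (P (k + 2) S) = 0 :=
      Bf_y_zero _ _ _ (pderiv_P _ _ _ hg)
    have z2 : Bf (P (k + 2) S) (X (some g) * (X (some g) * P k S)) = 0 := by
      rw [Bf_symm, z1]
    rw [h, card_insert_of_notMem hg, nn_succ]
    simp only [map_sub, LinearMap.sub_apply, Bf_C_left, Bf_C_right, z1, z2,
      Bf_y2y2 _ _ _ (pderiv_P k S g hg), ih]
    push_cast; ring

lemma Bf_q (S : Finset (Fin M)) (g : Fin M) (hg : g ∉ S) (e : ℂ) (he : e * e = 1) :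
    Bf ((C e * X none + C 4 * X (some g)) * ∏ g ∈ S, Q g)
      ((C e * X none + C 4 * X (some g)) * ∏ g ∈ S, Q g) =
      (nn 1 S.card : ℂ) + 16 * nn 0 S.card := by
  have h : (C e * X none + C 4 * X (some g)) * ∏ g ∈ S, Q g =
      C e * P 1 S + C 4 * (X (some g) * P 0 S) := by
    unfold P; ring
  have z1 : Bf (X (some g) * P 0 S) (P 1 S) = 0 := Bf_y_zero _ _ _ (pderiv_P _ _ _ hg)
  have z2 : Bf (P 1 S) (X (some g) * P 0 S) = 0 := by rw [Bf_symm, z1]
  rw [h]
  simp only [map_add, LinearMap.add_apply, Bf_C_left, Bf_C_right, z1, z2,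
    Bf_yy _ _ _ (pderiv_P 0 S g hg), Bf_P]
  linear_combination (nn 1 S.card : ℂ) * he

def sg (s : Fin 2) : ℂ := if s = 0 then 1 else -1

lemma sg_sq (s : Fin 2) : sg s * sg s = 1 := by unfold sg; split_ifs <;> simp

def u (z : Fin M × Fin 2) : Option (Fin M) → ℂ
  | none => sg z.2
  | some g => if g = z.1 then 4 else 0

def x0 : Option (Fin M) → ℂ
  | none => 1
  | some _ => 0

lemma lin_u (z : Fin M × Fin 2) : lin (u z) = C (sg z.2) * X none + C 4 * X (some z.1) := by
  unfold lin
  rw [Fintype.sum_option, Finset.sum_eq_single z.1]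
  · simp [u]
  · intro b _ hb; simp [u, hb]
  · simp

lemma lin_x0 : lin (x0 : Option (Fin M) → ℂ) = X none := by
  unfold lin
  rw [Fintype.sum_option]; simp [x0]

lemma lin_pair (g : Fin M) : lin (u (g, 0)) * lin (u (g, 1)) = Q g := by
  rw [lin_u, lin_u, Q]
  have h16 : (C 16 : MvPolynomial (Option (Fin M)) ℂ) = C 4 * C 4 := by
    rw [← C_mul]; norm_num
  simp only [sg, h16]
  simp
  ring

def vec : Fin (M * 2 + 1) → Option (Fin M) → ℂ :=
  Fin.cons x0 fun k => u (finProdFinEquiv.symm k)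

def mat (M : ℕ) : Matrix (Fin (M * 2 + 1)) (Fin (M * 2 + 1)) ℂ :=
  Matrix.of fun i j => ∑ c, vec i c * vec j c

lemma vec_star (i : Fin (M * 2 + 1)) (c : Option (Fin M)) : star (vec i c) = vec i c := by
  refine Fin.cases ?_ (fun k => ?_) i
  · cases c <;> simp [vec, x0]
  · cases c
    · simp only [vec, Fin.cons_succ, u, sg]; split_ifs <;> simp
    · simp only [vec, Fin.cons_succ, u]; split_ifs <;> simp

lemma mat_real (i j : Fin (M * 2 + 1)) : (mat M i j).im = 0 := by
  rw [← Complex.conj_eq_iff_im]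
  simp only [mat, Matrix.of_apply, map_sum, map_mul]
  refine sum_congr rfl fun c _ => ?_
  have h1 := vec_star i c
  have h2 := vec_star j c
  rw [Complex.star_def] at h1 h2
  rw [h1, h2]

open scoped ComplexOrder in
lemma mat_psd : (mat M).PosSemidef := by
  obtain ⟨V, hV⟩ : ∃ V : Matrix (Fin (M * 2 + 1)) (Option (Fin M)) ℂ, V = Matrix.of vec :=
    ⟨_, rfl⟩
  have : mat M = V * V.conjTranspose := by
    ext i j
    rw [Matrix.mul_apply]
    simp only [mat, hV, Matrix.of_apply, Matrix.conjTranspose_apply, vec_star]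
  rw [this]
  exact Matrix.posSemidef_self_mul_conjTranspose _

lemma mat_row (k : Fin (M * 2)) : ‖mat M 0 k.succ‖ ^ 2 = 1 := by
  have : mat M 0 k.succ = sg (finProdFinEquiv.symm k).2 := by
    simp only [mat, Matrix.of_apply, Fintype.sum_option, vec, Fin.cons_zero, Fin.cons_succ, x0, u]
    simp
  rw [this, sg]; split_ifs <;> simp

lemma perm_mat : (mat M).permanent = (nn 1 M : ℂ) := by
  rw [mat, fock]
  have : ∏ i, lin (vec i : Option (Fin M) → ℂ) = P 1 univ := by
    rw [Fin.prod_univ_succ]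
    simp only [vec, Fin.cons_zero, Fin.cons_succ]
    rw [Equiv.prod_comp finProdFinEquiv.symm (fun z => lin (u z)), Fintype.prod_prod_type, lin_x0]
    simp only [Fin.prod_univ_two, lin_pair, P, pow_one]
  rw [this, Bf_P]; simp

lemma perm_sub (k : Fin (M * 2)) :
    ((mat M).submatrix (Subtype.val : {j : Fin (M * 2 + 1) // j ≠ 0 ∧ j ≠ k.succ} → _)
      Subtype.val).permanent = (nn 1 (M - 1) : ℂ) + 16 * nn 0 (M - 1) := by
  have h0 : (mat M).submatrix (Subtype.val : {j : Fin (M * 2 + 1) // j ≠ 0 ∧ j ≠ k.succ} → _)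
      Subtype.val = Matrix.of fun (i j : {j : Fin (M * 2 + 1) // j ≠ 0 ∧ j ≠ k.succ}) =>
        ∑ c, vec i.1 c * vec j.1 c := rfl
  rw [h0, fock (fun i : {j : Fin (M * 2 + 1) // j ≠ 0 ∧ j ≠ k.succ} => vec i.1)]
  obtain ⟨⟨g, s⟩, rfl⟩ := finProdFinEquiv.surjective k
  have h1 : ∏ i : {j : Fin (M * 2 + 1) // j ≠ 0 ∧ j ≠ (finProdFinEquiv (g, s)).succ},
      lin (vec i.1 : Option (Fin M) → ℂ) =
      lin (u (g, s + 1)) * ∏ g' ∈ univ.erase g, Q g' := by
    rw [← Finset.prod_subtype (univ.filter fun j => j ≠ 0 ∧ j ≠ (finProdFinEquiv (g, s)).succ)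
      (by simp) (fun j => lin (vec j : Option (Fin M) → ℂ)), prod_filter, Fin.prod_univ_succ,
      if_neg (by simp), one_mul, ← Equiv.prod_comp finProdFinEquiv, Fintype.prod_prod_type,
      ← Finset.mul_prod_erase _ _ (mem_univ g)]
    simp only [vec, Fin.cons_succ, Equiv.symm_apply_apply, ne_eq, Fin.succ_ne_zero,
      not_false_eq_true, true_and, Fin.succ_inj, Equiv.apply_eq_iff_eq, Prod.mk.injEq,
      Fin.prod_univ_two]
    congr 1
    · fin_cases s <;> simp
    · refine prod_congr rfl fun g' hg' => ?_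
      have : g' ≠ g := ne_of_mem_erase hg'
      simp [this, lin_pair]
  rw [h1, lin_u, Bf_q _ _ (notMem_erase g univ) _ (sg_sq _)]
  simp [card_erase_of_mem]

end Pool.Agent.H.MP_395ab6_co
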